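import Pool.Agent.helper22.FI3.SpecCQ

set_option autoImplicit false

namespace Pool.Agent.FI3

open Pool.Agent.helper58.DC Pool.Agent.DI Pool.Agent.GR Pool.Agent.OB Pool.Agent.DR Pool.Agent.FI

theorem JEX_mul (hSCH : SCH_stmt) (hB2 : B2_stmt) (G : Type) [Group G] [Finite G] (L Z : Subgroup G)
    (hZL : Z ≤ L) (hc : ∀ z ∈ Z, ∀ l ∈ L, z * l = l * z) (f : G → ℂ) (hf : f ∈ IrrOn L) (z : G)
    (hz : z ∈ Z) (x : G) : f (z * x) * f 1 = f z * f x := by
  obtain ⟨-, hcl, -, -, -⟩ := (hB2 G L).2 f hf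
  have h := hSCH G L f hf z (hZL hz) x
  have h1 : ∑ᶠ t ∈ (L : Set G), f (z * (t * x * t⁻¹)) = (Nat.card L : ℂ) * f (z * x) := by
    have h2 : ∀ t ∈ (L : Set G), f (z * (t * x * t⁻¹)) = f (z * x) := by
      intro t ht
      have h3 : z * (t * x * t⁻¹) = t * (z * x) * t⁻¹ := by
        have h4 := hc z hz t ht
        calc z * (t * x * t⁻¹) = (z * t) * x * t⁻¹ := by group
          _ = (t * z) * x * t⁻¹ := by rw [h4]
          _ = t * (z * x) * t⁻¹ := by group
      rw [h3]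
      exact hcl _ t ht
    rw [finsum_mem_congr rfl h2]
    have hfin : (L : Set G).Finite := Set.toFinite _
    rw [finsum_mem_eq_finite_toFinset_sum _ hfin, Finset.sum_const, nsmul_eq_mul]
    congr 1
    have h5 : hfin.toFinset.card = Nat.card L := by
      rw [← Set.ncard_eq_toFinset_card _ hfin]
      rfl
    rw [h5]
  rw [h1] at h
  have hL : (Nat.card L : ℂ) ≠ 0 := by
    have h6 : Nat.card L ≠ 0 := Nat.card_pos.ne'
    exact_mod_cast h6
  have h7 : (Nat.card L : ℂ) * (f (z * x) * f 1) = (Nat.card L : ℂ) * (f z * f x) := by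
    calc (Nat.card L : ℂ) * (f (z * x) * f 1) = f 1 * ((Nat.card L : ℂ) * f (z * x)) := by ring
      _ = (Nat.card L : ℂ) * f z * f x := h
      _ = (Nat.card L : ℂ) * (f z * f x) := by ring
  exact mul_left_cancel₀ hL h7

theorem JEX (hBR0 : BR0_stmt) (hSCH : SCH_stmt) (hFBC : FBC_stmt) (hB2 : B2_stmt) : JEX_stmt := by
  intro p M hS G _ _ L Z hZp hZL hc ψ hψ
  classical
  obtain ⟨hfin, hI⟩ := hB2 G L
  have hSsub : ∀ f ∈ Bl M L ψ, f ∈ IrrOn L := fun x hx => hx.1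
  have hSfin : (Bl M L ψ).Finite := hfin.subset hSsub
  have hmem : ψ ∈ Bl M L ψ := ⟨hψ, SB.refl L ψ⟩
  by_contra hcon
  push Not at hcon
  have hBC := (hFBC p M hS G L ψ 1).1
  have : Fintype Z := Fintype.ofFinite Z
  have hf1 : ∀ f ∈ Bl M L ψ, f 1 ≠ 0 := by
    intro f hf
    obtain ⟨⟨n, hn, hn1, -⟩, -⟩ := hI f (hSsub f hf)
    rw [hn1]
    exact_mod_cast hn.ne'
  -- the sum over `Z` of the values vanishes
  have hzero : ∀ f ∈ Bl M L ψ, ∑ z : Z, f (z : G) = 0 := by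
    intro f hf
    obtain ⟨z₀, hz₀, x, hx⟩ := hcon f hf
    have hm := fun z hz x => JEX_mul hSCH hB2 G L Z hZL hc f (hSsub f hf) z hz x
    have hne : f z₀ ≠ f 1 := by
      intro h
      apply hx
      have h1 := hm z₀ hz₀ x
      rw [h] at h1
      have h2 : f 1 * f (z₀ * x) = f 1 * f x := by rw [mul_comm]; exact h1
      exact mul_left_cancel₀ (hf1 f hf) h2
    have hshift : ∑ z : Z, f (((⟨z₀, hz₀⟩ : Z) * z : Z) : G) = ∑ z : Z, f (z : G) :=
      Fintype.sum_equiv (Equiv.mulLeft (⟨z₀, hz₀⟩ : Z)) _ _ (fun z => rfl)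
    have h3 : (∑ z : Z, f (z : G)) * f 1 = f z₀ * ∑ z : Z, f (z : G) := by
      rw [Finset.mul_sum]
      rw [← hshift, Finset.sum_mul]
      apply Finset.sum_congr rfl
      intro z _
      exact hm z₀ hz₀ z
    have h4 : (f z₀ - f 1) * ∑ z : Z, f (z : G) = 0 := by
      rw [sub_mul, ← h3]
      ring
    rcases mul_eq_zero.mp h4 with h5 | h5
    · exact absurd (sub_eq_zero.mp h5) hne
    · exact h5
  -- the block orthogonality
  have hBR : ∀ z : Z, z ≠ 1 → Sf (Bl M L ψ) (z : G) 1 = 0 := by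
    intro z hz
    have hp1 : ¬ p ∣ orderOf (1 : G) := by
      rw [orderOf_one]
      exact fun h => hS.pr.one_lt.ne' (Nat.dvd_one.mp h)
    have h := hBR0 p M hS G L (Bl M L ψ) hBC (z : G) (hZL z.2) 1 L.one_mem 1 L.one_mem 1 L.one_mem
      (by
        obtain ⟨k, hk⟩ := hZp z
        refine ⟨k, ?_⟩
        have := congrArg (Subtype.val) hk
        simpa using this)
      ⟨0, by simp⟩ hp1 hp1 (Commute.one_right _) (Commute.one_right _)
      (by
        intro h hh h1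
        apply hz
        have h2 : (z : G) = 1 := by
          have h3 : (z : G) = h * (h⁻¹ * (z : G) * h) * h⁻¹ := by group
          rw [h3, h1]
          group
        exact Subtype.ext h2)
    simpa using h
  have hSf : ∀ a : G, Sf (Bl M L ψ) a 1 = ∑ f ∈ hSfin.toFinset, f a * f 1 := by
    intro a
    unfold Sf
    rw [finsum_mem_eq_finite_toFinset_sum _ hSfin]
    simp
  have htot : ∑ z : Z, Sf (Bl M L ψ) (z : G) 1 = Sf (Bl M L ψ) 1 1 := by
    rw [Finset.sum_eq_single (1 : Z)]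
    · simp
    · intro z _ hz
      exact hBR z hz
    · intro h
      exact absurd (Finset.mem_univ _) h
  have htot0 : ∑ z : Z, Sf (Bl M L ψ) (z : G) 1 = 0 := by
    simp only [hSf]
    rw [Finset.sum_comm]
    apply Finset.sum_eq_zero
    intro f hf
    rw [← Finset.sum_mul, hzero f (hSfin.mem_toFinset.mp hf), zero_mul]
  rw [htot, hSf] at htot0
  -- positivity
  have hpos : ∀ f ∈ Bl M L ψ, ∃ n : ℕ, 0 < n ∧ f 1 = n := by
    intro f hf
    obtain ⟨⟨n, hn, hn1, -⟩, -⟩ := hI f (hSsub f hf)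
    exact ⟨n, hn, hn1⟩
  choose! n hn hn1 using hpos
  have h1 : ∑ f ∈ hSfin.toFinset, f 1 * f 1 = ((∑ f ∈ hSfin.toFinset, n f * n f : ℕ) : ℂ) := by
    push_cast
    apply Finset.sum_congr rfl
    intro f hf
    rw [hn1 f (hSfin.mem_toFinset.mp hf)]
  rw [h1] at htot0
  have h2 : (∑ f ∈ hSfin.toFinset, n f * n f : ℕ) = 0 := by exact_mod_cast htot0
  have h3 := (Finset.sum_eq_zero_iff.mp h2) ψ (hSfin.mem_toFinset.mpr hmem)
  have h4 := hn ψ hmem
  have h5 : 0 < n ψ * n ψ := Nat.mul_pos h4 h4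
  omega

end Pool.Agent.FI3
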